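import Pool.Agent.Helper94.SEL.Jnt
import Pool.Agent.Helper29.MX.Yc2
import Pool.Agent.Helper84.SEL.Numx
import Pool.Agent.Helper77.TPX.Row
import Pool.Agent.Helper22.OC.One
import Pool.Agent.Helper52.MW.Minw
import Pool.Agent.Helper63.ZMX.Zmx
import Pool.Agent.Helper82.RZS.Main
import Pool.Agent.Helper55.INV.Irw
import Pool.Agent.Helper25.DX.Tgr
import Pool.Agent.Helper63.SCN.Scn
import Pool.Agent.Helper48.ROK.Numj
import Pool.Agent.Helper5.TRY.Main
import Pool.Agent.Helper70.CPW.Fin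
import Pool.Agent.Helper71.VIS.Ttn
import Pool.Agent.Helper49.KL.Limr
import Pool.Agent.Helper18.SRT.Src
import Pool.Agent.Helper21.DGY.Row
import Pool.Agent.Helper52.MW.Defj
import Pool.Agent.Helper95.VIS.VisoRow
import Pool.Agent.Helper29.HX.Her
import Pool.Agent.Helper4.ZH.Fin

/-! [SELP] THE SELECTION FROM ITS ROWS: assembly of both halves; rows which are theorems are plugged in, the others are
the fields of `Rows`. -/

set_option autoImplicit false

namespace Pool.Agent.Helper40.SEL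

open Pool.Agent.Helper94.SEL Pool.Agent.Helper29.MX

/-- the rows which are used as hypotheses -/
structure Rows (M : ℕ) : Prop where
  /-- helper94, helper15, ... -/
  first : FIRST M
  /-- helper26 -/
  herx : Pool.Agent.Helper29.HX.HERX (M + 1)
  /-- helper85, helper61 -/
  zclx : Pool.Agent.Helper7.RD.ZCLX M

variable {M : ℕ}

/-- [ZOOMX] -/
theorem zoomx (M : ℕ) : ZOOMX M (Pool.Agent.Helper82.RZS.gb M) :=
  Pool.Agent.Helper63.ZMX.zoomx (Pool.Agent.Helper82.RZS.rowsz M) (Pool.Agent.Helper55.INV.invrw M)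

/-- [LIMX] -/
theorem limx (M : ℕ) : LIMX M :=
  Pool.Agent.Helper49.KL.limx (Pool.Agent.Helper71.VIS.trnx (Pool.Agent.Helper84.SEL.numx M))
    (Pool.Agent.Helper25.DX.tgr M) (zoomx M) (Pool.Agent.Helper77.TPX.topf M)

/-- FIRST HALF -/
theorem jnt_of (h1 : FIRST M) : JNT M :=
  have h2 : LIMX M := limx M
  have hC : CORN M (Pool.Agent.Helper82.RZS.gb M) := Pool.Agent.Helper22.OC.corn (zoomx M) h2
  have hG : TGR M := Pool.Agent.Helper25.DX.tgr M
  have hT : TOPZ M := Pool.Agent.Helper77.TPX.topz M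
  jnt h1 (Pool.Agent.Helper63.SCN.scn hG hC)
    (Pool.Agent.Helper52.MW.minw_row (Pool.Agent.Helper84.SEL.numx M) h2 hC hT hG) (Pool.Agent.Helper22.OC.onec hC hT hG) hC

/-- [HERJ] -/
theorem herj_of (h : Pool.Agent.Helper29.HX.HERX (M + 1)) : HERJ M :=
  Pool.Agent.Helper29.HX.herj_of (Pool.Agent.Helper95.VIS.viso_row (Pool.Agent.Helper77.TPX.topz M) (limx M))
    (Pool.Agent.Helper4.ZH.zoomh_all M) h

/-- SELECTION -/
theorem selp_rows (hM : 1 ≤ M) (h : Rows M) : SELP M :=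
  have hY : ZMYR M := Pool.Agent.Helper7.RD.zmyr h.zclx
  selp_of hM (jnt_of h.first) (Pool.Agent.Helper48.ROK.numj M) (Pool.Agent.Helper48.ROK.carj M)
    (Pool.Agent.Helper52.MW.defj M) (herj_of h.herx)
    (Pool.Agent.Helper70.CPW.cpyr M) (Pool.Agent.Helper7.RD.srtr (Pool.Agent.Helper18.SRT.srcx M) h.zclx) hY
    (Pool.Agent.Helper21.DGY.dgyr hY) (Pool.Agent.Helper5.TRY.tryr M)

end Pool.Agent.Helper40.SEL
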